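import Pool.Agent.Helper72.FX.StK

/-!
# FX module PMX (helper85 for helper72): exactness and finiteness of `M ↦ M[X]`
-/

set_option autoImplicit false

namespace Pool.Agent.Helper85.FX

open Polynomial Pool.Agent.Helper72.FX

variable {A : Type} [CommRing A]

theorem pm_ext {M : Type} [AddCommGroup M] [Module A M] {g h : PolynomialModule A M}
    (H : ∀ n, g.coeff n = h.coeff n) : g = h := by
  apply PolynomialModule.ext
  exact Finsupp.ext H

theorem pmap_inj {M N : Type} [AddCommGroup M] [Module A M] [AddCommGroup N] [Module A N]
    (i : M →ₗ[A] N) (hi : Function.Injective i) : Function.Injective (pmap i) := by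
  intro g h hgh
  apply pm_ext
  intro n
  apply hi
  rw [← pmap_coeff, ← pmap_coeff, hgh]

theorem pmap_surj {M N : Type} [AddCommGroup M] [Module A M] [AddCommGroup N] [Module A N]
    (i : M →ₗ[A] N) (hi : Function.Surjective i) : Function.Surjective (pmap i) := by
  intro g
  induction g using PolynomialModule.induction_linear with
  | zero => exact ⟨0, map_zero _⟩
  | add p q hp hq =>
    obtain ⟨a, ha⟩ := hp
    obtain ⟨b, hb⟩ := hq
    exact ⟨a + b, by rw [map_add, ha, hb]⟩
  | single k m =>
    obtain ⟨a, ha⟩ := hi m
    exact ⟨PolynomialModule.single A k a, by rw [pmap_single, ha]⟩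

theorem pmap_exact {M N Q : Type} [AddCommGroup M] [Module A M] [AddCommGroup N] [Module A N]
    [AddCommGroup Q] [Module A Q] (i : M →ₗ[A] N) (p : N →ₗ[A] Q) (h : Function.Exact i p) :
    Function.Exact (pmap i) (pmap p) := by
  intro g
  constructor
  · intro hg
    have hc : ∀ n, ∃ a, i a = g.coeff n := by
      intro n
      have : p (g.coeff n) = 0 := by
        rw [← pmap_coeff, hg]
        rfl
      exact (h _).1 this
    choose a ha using hc
    refine ⟨∑ n ∈ g.coeff.support, PolynomialModule.single A n (a n), ?_⟩
    rw [map_sum]
    apply PolynomialModule.ext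
    rw [PolynomialModule.coeff_sum]
    have h2 : (∑ x ∈ g.coeff.support, (pmap i (PolynomialModule.single A x (a x))).coeff) =
        ∑ x ∈ g.coeff.support, Finsupp.single x (g.coeff x) := by
      apply Finset.sum_congr rfl
      intro x _
      rw [pmap_single, ha, PolynomialModule.coeff_single]
    rw [h2]
    exact Finsupp.sum_single g.coeff
  · rintro ⟨f, rfl⟩
    apply pm_ext
    intro n
    rw [pmap_coeff, pmap_coeff]
    have : p (i (f.coeff n)) = 0 := (h _).2 ⟨_, rfl⟩
    rw [this]
    rfl

theorem pm_finite {M : Type} [AddCommGroup M] [Module A M] (h : Module.Finite A M) :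
    Module.Finite A[X] (PolynomialModule A M) := by
  classical
  obtain ⟨s, hs⟩ := h.1
  refine ⟨⟨s.image (fun m => PolynomialModule.single A 0 m), ?_⟩⟩
  rw [eq_top_iff]
  intro g _
  induction g using PolynomialModule.induction_linear with
  | zero => exact Submodule.zero_mem _
  | add p q hp hq => exact Submodule.add_mem _ (hp trivial) (hq trivial)
  | single k m =>
    have hm : m ∈ Submodule.span A (s : Set M) := by rw [hs]; trivial
    induction hm using Submodule.span_induction with
    | mem x hx =>
      have h1 : PolynomialModule.single A k x =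
          (monomial k (1 : A) : A[X]) • PolynomialModule.single A 0 x := by
        rw [PolynomialModule.monomial_smul_single]
        simp
      rw [h1]
      apply Submodule.smul_mem
      apply Submodule.subset_span
      simp only [Finset.coe_image, Set.mem_image]
      exact ⟨x, hx, rfl⟩
    | zero =>
      rw [PolynomialModule.single_zero]
      exact Submodule.zero_mem _
    | add x y _ _ hx hy =>
      rw [PolynomialModule.single_add]
      exact Submodule.add_mem _ (hx trivial) (hy trivial)
    | smul a x _ hx =>
      have h1 : PolynomialModule.single A k (a • x) =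
          (monomial 0 a : A[X]) • PolynomialModule.single A k x := by
        rw [PolynomialModule.monomial_smul_single]
        simp
      rw [h1]
      exact Submodule.smul_mem _ _ (hx trivial)

theorem C_smul_coeff {M : Type} [AddCommGroup M] [Module A M] (a : A) (g : PolynomialModule A M)
    (n : ℕ) : ((C a : A[X]) • g).coeff n = a • g.coeff n := by
  have := PolynomialModule.monomial_smul_apply 0 a g n
  rw [← monomial_zero_left]
  rw [this]
  simp

theorem hPMX : StPMX := by
  intro A _ M N Q _ _ _ _ _ _ i p
  refine ⟨pmap_inj i, pmap_surj i, pmap_exact i p, pm_finite, ?_, ?_⟩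
  · intro I hI x hx y
    induction hx using Submodule.span_induction with
    | mem x hx =>
      obtain ⟨a, ha, rfl⟩ := hx
      apply pm_ext
      intro n
      have h1 : ((C a : A[X]) • y).coeff n = a • y.coeff n := C_smul_coeff a y n
      have h2 : a • y.coeff n = 0 := hI a ha _
      exact (h1.trans h2)
    | zero => exact zero_smul _ _
    | add x z _ _ hx hz => rw [add_smul, hx, hz, add_zero]
    | smul a x _ hx => rw [smul_assoc, hx, smul_zero]
  · intro E k hk y
    apply pm_ext
    intro n
    have h1 : ((C E : A[X]) ^ k • y).coeff n = E ^ k • y.coeff n := by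
      rw [← C_pow]
      exact C_smul_coeff _ y n
    exact h1.trans (hk _)

end Pool.Agent.Helper85.FX
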