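import Pool.Agent.Helper84.FX.StX

/-!
# FX module T6 (helper85 for helper84): `H → ℂ¹⁰` is a weak equivalence
-/

set_option autoImplicit false

namespace Pool.Agent.Helper85.FX

open Pool.Agent.Helper84.FX Pool.Agent.Helper72.FX

theorem hT6 : StGL → StTE → StTHH → StH0 → StH1 → StT6 := by
  intro hGL hTE hTHH hH0 hH1 U hU
  have h0 : (0 : ℂ) ∉ U := by
    intro h
    obtain ⟨_, s, _, hs⟩ := hU
    exact (hs 0 h).2 rfl
  refine hGL (Fin 12 → ℂ) (Fin 10 → ℂ) (ℂ × ℂ) (HH U) (C10 U) pr10 (fun z => (EE1 z, EE2 z)) ?_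
    (hTE U hU.1 h0) (hTHH U hU.1 h0) (hH0 U hU) (hH1 U)
  refine ⟨?_, ?_⟩
  · apply Continuous.continuousOn
    refine continuous_pi fun i => ?_
    fin_cases i <;> exact continuous_apply _
  · intro z hz
    exact hz.1

end Pool.Agent.Helper85.FX
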